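import Pool.Agent.Lib_helper32.JO.N0

/-! JO part B1, block VAR -/

set_option autoImplicit false

namespace Pool.Agent.JO

open Complex MeasureTheory Filter Topology
open UpperHalfPlane hiding I
open scoped MatrixGroups ComplexConjugate ENNReal

variable {N : ℕ} [NeZero N]

theorem var_one : SqF (N := N) (fun _ _ => (1 : ℂ)) := by
  refine SqF_of_bdd (C := 1) ⟨fun _ _ _ => rfl, fun s => measurable_const⟩ ?_
  intro s g
  simp

omit [NeZero N] in
theorem var_mf {F : QN N → SL(2, ℝ) → ℂ} (hF : MF F) (c : ℂ) : MF (fun s g => F s g - c) := by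
  refine ⟨fun γ s g => ?_, fun s => ?_⟩
  · change F _ _ - c = F s g - c
    rw [hF.1 γ s g]
  · exact (hF.2 s).sub_const c

theorem var_ipl {F H : QN N → SL(2, ℝ) → ℂ} (hF : SqF F) (hH : SqF H) (c : ℂ) :
    ip (fun s g => F s g - c) H = ip F H - c * ip (fun _ _ => (1 : ℂ)) H := by
  unfold ip
  rw [Finset.mul_sum, ← Finset.sum_sub_distrib]
  refine Finset.sum_congr rfl fun s _ => ?_
  rw [← integral_const_mul, ← integral_sub ((ip_cs hF hH).1 s) (((ip_cs var_one hH).1 s).const_mul c)]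
  refine integral_congr_ae (Eventually.of_forall fun p => ?_)
  ring

theorem var_ip_symm (F H : QN N → SL(2, ℝ) → ℂ) : ip H F = conj (ip F H) := by
  unfold ip
  rw [map_sum]
  refine Finset.sum_congr rfl fun s _ => ?_
  rw [← integral_conj]
  refine integral_congr_ae (Eventually.of_forall fun p => ?_)
  simp [mul_comm]

theorem var_ip_self {F : QN N → SL(2, ℝ) → ℂ} (hF : SqF F) :
    ip F F = ((∑ s : QN N, ∫ p : ℍ × ℝ, ‖F s (gg p.1 p.2)‖ ^ 2 ∂muG : ℝ) : ℂ) := by
  unfold ip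
  push_cast
  refine Finset.sum_congr rfl fun s _ => ?_
  rw [← integral_complex_ofReal]
  refine integral_congr_ae (Eventually.of_forall fun p => ?_)
  simp only [Complex.mul_conj, Complex.normSq_eq_norm_sq]

theorem var_nG {F : QN N → SL(2, ℝ) → ℂ} (hF : SqF F) : ENNReal.ofReal (ip F F).re = nG F := by
  rw [var_ip_self hF, Complex.ofReal_re, ENNReal.ofReal_sum_of_nonneg]
  · unfold nG
    refine Finset.sum_congr rfl fun s _ => ?_
    exact ofReal_integral_eq_lintegral_ofReal (hF.sq s) (Eventually.of_forall fun p => sq_nonneg _)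
  · intro s _
    exact integral_nonneg fun p => sq_nonneg _

theorem mean_sub_pr {F : QN N → SL(2, ℝ) → ℂ} (hF : MF F) (hb : ∃ B : ℝ, ∀ s g, ‖F s g‖ ≤ B) :
    SqF (fun s g => F s g - mean F) ∧ mean (fun s g => F s g - mean F) = 0 ∧
      ENNReal.ofReal (ip (fun s g => F s g - mean F) (fun s g => F s g - mean F)).re ≤ nG F := by
  obtain ⟨B, hB⟩ := hb
  have hFs : SqF F := SqF_of_bdd hF hB
  obtain ⟨V, hV, hVe⟩ := ip_one (N := N)
  have hVc : (V : ℂ) ≠ 0 := by exact_mod_cast hV.ne'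
  have hm : ip F (fun _ _ => 1) = mean F * V := by
    unfold mean
    rw [hVe]
    field_simp
  set m := mean F with hmd
  have hGs : SqF (fun s g => F s g - m) := by
    refine SqF_of_bdd (C := B + ‖m‖) (var_mf hF m) fun s g => ?_
    exact (norm_sub_le _ _).trans (by linarith [hB s g])
  have h0 : ip (fun s g => F s g - m) (fun _ _ => (1 : ℂ)) = 0 := by
    rw [var_ipl hFs var_one, hm, hVe]
    ring
  refine ⟨hGs, ?_, ?_⟩
  · unfold mean
    rw [h0, zero_div]
  · rw [← var_nG hFs]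
    refine ENNReal.ofReal_le_ofReal ?_
    have h1 : ip (fun s g => F s g - m) (fun s g => F s g - m) = ip F (fun s g => F s g - m) := by
      rw [var_ipl hFs hGs, var_ip_symm (fun s g => F s g - m) (fun _ _ => (1 : ℂ)), h0]
      simp
    have h2 : ip F (fun s g => F s g - m) = ip F F - conj m * (m * V) := by
      rw [var_ip_symm (fun s g => F s g - m) F, var_ipl hFs hFs, map_sub, map_mul, ← var_ip_symm,
        ← var_ip_symm, hm]
    rw [h1, h2, Complex.sub_re]
    have h3 : (conj m * (m * (V : ℂ))).re = ‖m‖ ^ 2 * V := by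
      rw [← mul_assoc, mul_comm (conj m) m, Complex.mul_conj, Complex.normSq_eq_norm_sq]
      rw [← Complex.ofReal_mul, Complex.ofReal_re]
    rw [h3]
    have : 0 ≤ ‖m‖ ^ 2 * V := by positivity
    linarith

theorem var_gx {x : ℂ} (hx : x ≠ 0) : ∃ (a : ℝ) (z : ℝ → ℍ), Continuous z ∧
    ∀ t, gx x t = gg (z t) a := by
  have hn : 0 < ‖x‖ := norm_pos_iff.mpr hx
  refine ⟨Complex.arg (x / I), fun t => ⟨⟨t, (‖x‖ ^ 2)⁻¹⟩, by positivity⟩, ?_, fun t => ?_⟩
  · refine Continuous.upperHalfPlaneMk ?_ _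
    have : (fun t : ℝ => (⟨t, (‖x‖ ^ 2)⁻¹⟩ : ℂ)) = fun t : ℝ => (t : ℂ) + ((‖x‖ ^ 2)⁻¹ : ℝ) * I := by
      funext t
      apply Complex.ext
      · rw [Complex.add_re, Complex.ofReal_re, Complex.re_ofReal_mul, Complex.I_re, mul_zero, add_zero]
      · rw [Complex.add_im, Complex.ofReal_im, Complex.im_ofReal_mul, Complex.I_im, mul_one, zero_add]
    rw [this]
    fun_prop
  · rw [gx_eq_gg]
    have h1 : √((⟨⟨t, (‖x‖ ^ 2)⁻¹⟩, by positivity⟩ : ℍ).im) = ‖x‖⁻¹ := by
      change √((‖x‖ ^ 2)⁻¹) = ‖x‖⁻¹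
      rw [← inv_pow, Real.sqrt_sq (by positivity)]
    have h2 : I * cexp (Complex.arg (x / I) * I) / (((√((⟨⟨t, (‖x‖ ^ 2)⁻¹⟩, by positivity⟩ : ℍ).im)) : ℝ) : ℂ) = x := by
      rw [h1]
      have h3 := Complex.norm_mul_exp_arg_mul_I (x / I)
      rw [norm_div, Complex.norm_I, div_one] at h3
      have h4 : I * (x / I) = x := mul_div_cancel₀ x Complex.I_ne_zero
      push_cast
      rw [div_inv_eq_mul, mul_assoc, mul_comm (cexp _) (‖x‖ : ℂ), h3, h4]
    rw [h2]
    rfl

omit [NeZero N] in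
theorem var_ii {F : QN N → SL(2, ℝ) → ℂ} (hF : MF F) (hb : ∃ B : ℝ, ∀ s g, ‖F s g‖ ≤ B)
    {x : ℂ} (hx : x ≠ 0) (s : QN N) : IntervalIntegrable (fun t => F s (gx x t)) volume 0 1 := by
  obtain ⟨a, z, hz, he⟩ := var_gx hx
  obtain ⟨B, hB⟩ := hb
  have hm : Measurable (fun t => F s (gx x t)) := by
    have h1 : (fun t => F s (gx x t)) = fun t => F s (gg (z t) a) := by
      funext t
      rw [he]
    rw [h1]
    exact (hF.2 s).comp (hz.measurable.prodMk measurable_const)
  rw [intervalIntegrable_iff]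
  refine Measure.integrableOn_of_bounded (M := B) ?_ hm.aestronglyMeasurable ?_
  · simp
  · exact Eventually.of_forall fun t => hB _ _

theorem cf_sub_const_pr {F : QN N → SL(2, ℝ) → ℂ} (hF : MF F) (hb : ∃ B : ℝ, ∀ s g, ‖F s g‖ ≤ B)
    (c : ℂ) {x : ℂ} (hx : x ≠ 0) {v : ZMod N × ZMod N} (hv : v ∈ PV N) :
    CF (fun s g => F s g - c) x v = CF F x v - c := by
  have h1 := CF_one (N := N) (x := x) hv
  unfold CF at h1 ⊢
  have h2 : ∀ s : QN N, (if bot s = v then ∫ t in (0 : ℝ)..1, (F s (gx x t) - c) else 0) =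
      (if bot s = v then ∫ t in (0 : ℝ)..1, F s (gx x t) else 0) -
        c * (if bot s = v then ∫ t in (0 : ℝ)..1, (1 : ℂ) else 0) := by
    intro s
    split_ifs
    · rw [intervalIntegral.integral_sub (var_ii hF hb hx s) intervalIntegrable_const]
      simp
    · simp
  rw [Finset.sum_congr rfl fun s _ => h2 s, Finset.sum_sub_distrib, ← Finset.mul_sum, mul_sub,
    mul_left_comm, h1, mul_one]


end Pool.Agent.JO
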